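import Pool.Agent.Q218.HB.Stm4

/-!
# Project HB2, job SUM
-/

set_option autoImplicit false

namespace Pool.Agent.Q184.HB

open Pool.Agent.Q218.HB

theorem sum : S_SUM := by
  intro d b C hd hb
  have h1 : Summable fun n : ℕ => |C| * (24 / b ^ 4) * (1 / (n : ℝ) ^ 2) :=
    (Real.summable_one_div_nat_pow.2 (by norm_num)).mul_left _
  refine Summable.of_norm_bounded_eventually_nat h1 ?_
  filter_upwards [Filter.eventually_ge_atTop 1] with n hn
  have hn' : (1 : ℝ) ≤ n := by exact_mod_cast hn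
  have h2 : (n : ℝ) ≤ (n : ℝ) ^ d := le_self_pow₀ hn' (by omega)
  have h3 : Real.sqrt n ≤ Real.sqrt ((n : ℝ) ^ d) := Real.sqrt_le_sqrt h2
  have h4 : Real.exp (-(b * Real.sqrt ((n : ℝ) ^ d))) ≤ 24 / b ^ 4 * (1 / (n : ℝ) ^ 2) := by
    have h5 : Real.exp (-(b * Real.sqrt ((n : ℝ) ^ d))) ≤ Real.exp (-(b * Real.sqrt n)) := by
      apply Real.exp_le_exp.2
      have := mul_le_mul_of_nonneg_left h3 hb.le
      linarith
    have h6 := Real.pow_div_factorial_le_exp (b * Real.sqrt n) (by positivity) 4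
    have h7 : (b * Real.sqrt n) ^ 4 = b ^ 4 * (n : ℝ) ^ 2 := by
      have : Real.sqrt n ^ 2 = n := Real.sq_sqrt (by positivity)
      calc (b * Real.sqrt n) ^ 4 = b ^ 4 * (Real.sqrt n ^ 2) ^ 2 := by ring
        _ = _ := by rw [this]
    have h8 : (Nat.factorial 4 : ℝ) = 24 := by norm_num [Nat.factorial]
    rw [h7, h8] at h6
    refine h5.trans ?_
    rw [Real.exp_neg]
    have h9 : 0 < b ^ 4 * (n : ℝ) ^ 2 / 24 := by positivity
    calc (Real.exp (b * Real.sqrt n))⁻¹ ≤ (b ^ 4 * (n : ℝ) ^ 2 / 24)⁻¹ := by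
          exact inv_anti₀ h9 h6
      _ = 24 / b ^ 4 * (1 / (n : ℝ) ^ 2) := by
          field_simp
  rw [norm_mul, Real.norm_eq_abs, Real.norm_eq_abs, Real.abs_exp, mul_assoc]
  exact mul_le_mul_of_nonneg_left h4 (abs_nonneg _)

end Pool.Agent.Q184.HB
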